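import Pool.Agent.Lib.MP_11cd85_al.MainA

/-!
# Ivanov's asphericity conjecture and `ℓ²`-cocycles
-/

set_option autoImplicit false

namespace Pool.Agent.Results.MP_11cd85_al.MalnormalCocycle

/-- The normal closure of the relators. -/
abbrev N {X ι : Type} (rel : ι → FreeGroup X) : Subgroup (FreeGroup X) :=
  Subgroup.normalClosure (Set.range rel)

/-- The group of the presentation with generators `X` and relators `rel i`. -/
abbrev GroupOf {X ι : Type} (rel : ι → FreeGroup X) : Type := FreeGroup X ⧸ N rel

open scoped Classical in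
/-- Asphericity of the presentation (as in the frozen statement): the relation module is freely
generated by the relators. A list of triples `(u, i, k)` stands for the product of the
`(u * rel i * u⁻¹) ^ k`; if it lies in the commutator subgroup of the normal closure, then for every
relator and every element of the group the exponents add up to zero. -/
def Aspherical {X ι : Type} (rel : ι → FreeGroup X) : Prop :=
  ∀ l : List (FreeGroup X × ι × ℤ),
    (l.map fun t => (t.1 * rel t.2.1 * t.1⁻¹) ^ t.2.2).prod ∈ ⁅N rel, N rel⁆ →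
      ∀ (i : ι) (g : FreeGroup X),
        (l.map fun t => if t.2.1 = i ∧ g⁻¹ * t.1 ∈ N rel then t.2.2 else 0).sum = 0

/-- The relators of `Q`: those of `P` and the new relator `r`. The generators of `Q` are
`some x`, for the generators `x` of `P`, and the new generator `none`. -/
abbrev relatorsQ {X ι : Type} (rs : ι → FreeGroup X) (r : FreeGroup (Option X)) :
    Option ι → FreeGroup (Option X) :=
  fun o => Option.elim o r fun i => FreeGroup.map some (rs i)

open scoped Classical in
/-- The total exponent of the new generator in `r`. -/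
noncomputable def exponentSum {X : Type} (r : FreeGroup (Option X)) : ℤ :=
  Multiplicative.toAdd (FreeGroup.lift (fun a : Option X =>
    if a = none then Multiplicative.ofAdd (1 : ℤ) else (1 : Multiplicative ℤ)) r)

/-- Malnormal subgroups: `L ∩ g⁻¹ L g = 1` for all `g` outside `L`. -/
def IsMalnormal {G : Type} [Group G] (L : Subgroup G) : Prop :=
  ∀ g y : G, g ∉ L → y ∈ L → g * y * g⁻¹ ∈ L → y = 1

/-- The real Hilbert space `ℓ²(G)`. -/
abbrev L2 (G : Type) : Type := lp (fun _ : G => ℝ) 2

/-- The 1-cocycles `b : G → ℓ²(G)`: `b (g h) = b g + g b h`, where `G` acts on `ℓ²(G)` by left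
translations. -/
def IsCocycle {G : Type} [Group G] (b : G → L2 G) : Prop :=
  ∀ g h x : G, b (g * h) x = b g x + b h (g⁻¹ * x)

/-- `b` is a pointwise limit of coboundaries `g ↦ g f - f`, `f ∈ ℓ²(G)`. -/
def IsLimitOfCoboundaries {G : Type} [Group G] (b : G → L2 G) : Prop :=
  ∀ (s : Finset G) (ε : ℝ), 0 < ε → ∃ f : L2 G, ∀ g ∈ s,
    ∑' x : G, (b g x - (f (g⁻¹ * x) - f x)) ^ 2 < ε

/-- **Counterexamples to Ivanov's conjecture.** Let `P` be aspherical, let `H → G` be injective and
`G` torsion-free, and let the total exponent of the new generator in `r` be non-zero or `H` be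
non-trivial. If `Q` is not aspherical, then there is a 1-cocycle `b : G → ℓ²(G)` which is not a limit
of coboundaries and whose zero set is a proper malnormal subgroup `L` that contains `H`. -/
theorem result (n m : ℕ) (rs : Fin m → FreeGroup (Fin n)) (r : FreeGroup (Option (Fin n)))
    (hP : Aspherical rs) (he : exponentSum r ≠ 0 ∨ N rs ≠ ⊤)
    (hinj : ∀ w : FreeGroup (Fin n), FreeGroup.map some w ∈ N (relatorsQ rs r) → w ∈ N rs)
    (htf : ∀ (w : FreeGroup (Option (Fin n))) (k : ℕ), 0 < k → w ^ k ∈ N (relatorsQ rs r) →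
      w ∈ N (relatorsQ rs r))
    (hQ : ¬ Aspherical (relatorsQ rs r)) :
    ∃ (L : Subgroup (GroupOf (relatorsQ rs r)))
      (b : GroupOf (relatorsQ rs r) → L2 (GroupOf (relatorsQ rs r))),
      (∀ w : FreeGroup (Fin n), QuotientGroup.mk' (N (relatorsQ rs r)) (FreeGroup.map some w) ∈ L) ∧
      L ≠ ⊤ ∧ IsMalnormal L ∧ IsCocycle b ∧ (∀ g, g ∈ L ↔ b g = 0) ∧
      ¬ IsLimitOfCoboundaries b := by
  obtain ⟨L, b, h1, h2, h3, h4, h5, h6⟩ :=
    Pool.Agent.Lib.MP_11cd85_al.exists_cocycle rs r hP he hinj htf hQ
  refine ⟨L, b, h1, h2, h3, ?_, h5, ?_⟩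
  · intro g h x
    rw [h4 g h]
    rfl
  · intro hl
    apply h6
    intro s ε hε
    obtain ⟨f, hf⟩ := hl s (ε ^ 2) (by positivity)
    refine ⟨f, fun g hg => ?_⟩
    have h7 := hf g hg
    have h8 : ‖b g - (Pool.Agent.Lib.MP_11cd85_al.lt (GroupOf (relatorsQ rs r)) g f - f)‖ ^ 2 =
        ∑' x : GroupOf (relatorsQ rs r), (b g x - (f (g⁻¹ * x) - f x)) ^ 2 :=
      Pool.Agent.Lib.MP_11cd85_al.E2.norm_sq _
    rw [← h8] at h7
    exact lt_of_pow_lt_pow_left₀ 2 hε.le h7

end Pool.Agent.Results.MP_11cd85_al.MalnormalCocycle
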