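import Pool.Agent.Lib.MP_11cd85_al.Cut.Der
import Pool.Agent.Lib.MP_11cd85_al.MainA

/-!
# Counterexamples to Ivanov's conjecture give one-sided zero divisors
-/

set_option autoImplicit false

namespace Pool.Agent.Results.MP_11cd85_al.OneSidedZeroDivisor

/-- The normal closure of the relators. -/
abbrev N {X ι : Type} (rel : ι → FreeGroup X) : Subgroup (FreeGroup X) :=
  Subgroup.normalClosure (Set.range rel)

/-- The group of the presentation with generators `X` and relators `rel i`. -/
abbrev GroupOf {X ι : Type} (rel : ι → FreeGroup X) : Type := FreeGroup X ⧸ N rel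

open scoped Classical in
/-- Asphericity of the presentation (as in the frozen statement): the relation module is freely
generated by the relators. A list of triples `(u, i, k)` stands for the product of the
`(u * rel i * u⁻¹) ^ k`; if it lies in the commutator subgroup of the normal closure, then for every
relator and every element of the group the exponents add up to zero. -/
def Aspherical {X ι : Type} (rel : ι → FreeGroup X) : Prop :=
  ∀ l : List (FreeGroup X × ι × ℤ),
    (l.map fun t => (t.1 * rel t.2.1 * t.1⁻¹) ^ t.2.2).prod ∈ ⁅N rel, N rel⁆ →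
      ∀ (i : ι) (g : FreeGroup X),
        (l.map fun t => if t.2.1 = i ∧ g⁻¹ * t.1 ∈ N rel then t.2.2 else 0).sum = 0

/-- The relators of `Q`: those of `P` and the new relator `r`. The generators of `Q` are
`some x`, for the generators `x` of `P`, and the new generator `none`. -/
abbrev relatorsQ {X ι : Type} (rs : ι → FreeGroup X) (r : FreeGroup (Option X)) :
    Option ι → FreeGroup (Option X) :=
  fun o => Option.elim o r fun i => FreeGroup.map some (rs i)

open scoped Classical in
/-- The total exponent of the new generator in `r`. -/
noncomputable def exponentSum {X : Type} (r : FreeGroup (Option X)) : ℤ :=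
  Multiplicative.toAdd (FreeGroup.lift (fun a : Option X =>
    if a = none then Multiplicative.ofAdd (1 : ℤ) else (1 : Multiplicative ℤ)) r)

/-- `H → G` is injective. -/
def Embeds {X ι : Type} (rs : ι → FreeGroup X) (r : FreeGroup (Option X)) : Prop :=
  ∀ w : FreeGroup X, FreeGroup.map some w ∈ N (relatorsQ rs r) → w ∈ N rs

/-- The group of the presentation is torsion-free. -/
def TorsionFree {X ι : Type} (rel : ι → FreeGroup X) : Prop :=
  ∀ (w : FreeGroup X) (k : ℕ), 0 < k → w ^ k ∈ N rel → w ∈ N rel

section

variable {n m : ℕ} (rs : Fin m → FreeGroup (Fin n)) (r : FreeGroup (Option (Fin n)))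

/-- The image in `G` of the product of the letters of the reduced word `r` before the `i`-th letter,
if this letter is a generator, and up to and including the `i`-th letter, if it is the inverse of a
generator. -/
def position (i : Fin r.toWord.length) : GroupOf (relatorsQ rs r) :=
  QuotientGroup.mk' (N (relatorsQ rs r))
    (FreeGroup.mk (if (r.toWord.get i).2 then r.toWord.take i else r.toWord.take (i + 1)))

/-- The exponent of the `i`-th letter of `r`, if it is `x` or `x⁻¹` (`x` the new generator), and `0`
otherwise. The Fox derivative `∂r/∂x ∈ ℤG` is the sum of the `exponent i • position i`. -/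
def exponent (i : Fin r.toWord.length) : ℤ :=
  if (r.toWord.get i).1 = none then (if (r.toWord.get i).2 then 1 else -1) else 0

/-- The product `(∂r/∂x) * f`, for a function `f` on `G` with values in an abelian group. -/
def foxMul {V : Type} [AddCommGroup V] (f : GroupOf (relatorsQ rs r) → V)
    (g : GroupOf (relatorsQ rs r)) : V :=
  ∑ i : Fin r.toWord.length, exponent r i • f ((position rs r i)⁻¹ * g)

/-- The product `u * (∂r/∂x)`, for an integral function `u` on `G`. -/
def mulFox (u : GroupOf (relatorsQ rs r) → ℤ) (g : GroupOf (relatorsQ rs r)) : ℤ :=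
  ∑ i : Fin r.toWord.length, exponent r i * u (g * (position rs r i)⁻¹)

end

/-- **The Fox derivative `∂r/∂x` has no right annihilators.** Let `G` be torsion-free and let the
total exponent of `x` in `r` be non-zero. Then `(∂r/∂x) * f = 0` implies `f = 0`, for all finitely
supported functions `f` on `G` with values in an abelian group, and for all real functions
`f ∈ ℓ¹(G)`. If, however, `P` is aspherical, `H → G` is injective and `Q` is not aspherical (a
counterexample to Ivanov's conjecture), then `u * (∂r/∂x) = 0` for some finitely supported integral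
function `u ≠ 0`, and `(∂r/∂x) * f = 0` for some `f ≠ 0` in `ℓ²(G)`. -/
theorem result (n m : ℕ) (rs : Fin m → FreeGroup (Fin n)) (r : FreeGroup (Option (Fin n)))
    (he : exponentSum r ≠ 0) (htf : TorsionFree (relatorsQ rs r)) :
    (∀ (V : Type) [AddCommGroup V] (f : GroupOf (relatorsQ rs r) → V),
      (Function.support f).Finite → (∀ g, foxMul rs r f g = 0) → f = 0) ∧
    (∀ f : GroupOf (relatorsQ rs r) → ℝ,
      (Summable fun g => |f g|) → (∀ g, foxMul rs r f g = 0) → f = 0) ∧
    (Aspherical rs → Embeds rs r → ¬ Aspherical (relatorsQ rs r) →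
      (∃ u : GroupOf (relatorsQ rs r) → ℤ,
        (Function.support u).Finite ∧ u ≠ 0 ∧ ∀ g, mulFox rs r u g = 0) ∧
      (∃ f : GroupOf (relatorsQ rs r) → ℝ,
        (Summable fun g => f g ^ 2) ∧ f ≠ 0 ∧ ∀ g, foxMul rs r f g = 0)) := by
  classical
  have hfox : ∀ (q : FreeGroup (Option (Fin n)) →* GroupOf (relatorsQ rs r)),
      q = QuotientGroup.mk' (N (relatorsQ rs r)) →
      Pool.Agent.Lib.MP_11cd85_al.fox q none r =
        ∑ i : Fin r.toWord.length, MonoidAlgebra.single (position rs r i) (exponent r i) := by
    intro q hq
    have h := Pool.Agent.Lib.MP_11cd85_al.UPR.fox_mk q none r.toWord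
    rw [FreeGroup.mk_toWord] at h
    rw [h]
    apply Finset.sum_congr rfl
    intro i _
    unfold exponent
    by_cases hi : (r.toWord.get i).1 = none
    · rw [if_pos hi, if_pos hi, hq]
      rfl
    · rw [if_neg hi, if_neg hi, MonoidAlgebra.single_zero]
  have hact : ∀ (V : Type) [AddCommGroup V] (f : GroupOf (relatorsQ rs r) → V),
      (∀ g, foxMul rs r f g = 0) →
      Pool.Agent.Lib.MP_11cd85_al.act
        (Pool.Agent.Lib.MP_11cd85_al.Cut.ltr (GroupOf (relatorsQ rs r)) V)
        (Pool.Agent.Lib.MP_11cd85_al.fox (QuotientGroup.mk' (N (relatorsQ rs r))) none r) f = 0 := by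
    intro V _ f hf
    rw [hfox _ rfl, map_sum]
    funext g
    refine Eq.trans ?_ (hf g)
    unfold foxMul
    have h1 : ∀ (s : Finset (Fin r.toWord.length)),
        (∑ i ∈ s, Pool.Agent.Lib.MP_11cd85_al.act
          (Pool.Agent.Lib.MP_11cd85_al.Cut.ltr (GroupOf (relatorsQ rs r)) V)
          (MonoidAlgebra.single (position rs r i) (exponent r i))) f g =
        ∑ i ∈ s, exponent r i • f ((position rs r i)⁻¹ * g) := by
      intro s
      induction s using Finset.induction_on with
      | empty => rfl
      | insert i s hi ih =>
        rw [Finset.sum_insert hi, Finset.sum_insert hi, ← ih]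
        have h2 := Pool.Agent.Lib.MP_11cd85_al.act_single
          (Pool.Agent.Lib.MP_11cd85_al.Cut.ltr (GroupOf (relatorsQ rs r)) V)
          (position rs r i) (exponent r i) f
        change (Pool.Agent.Lib.MP_11cd85_al.act _ _ f) g + _ = _
        rw [h2]
        rfl
    exact h1 Finset.univ
  refine ⟨?_, ?_, ?_⟩
  · intro V _ f hfin hf
    exact Pool.Agent.Lib.MP_11cd85_al.Cut.eq_zero_of_finite rs r he htf f hfin (hact V f hf)
  · intro f hsum hf
    exact Pool.Agent.Lib.MP_11cd85_al.Cut.eq_zero_of_summable rs r he htf f hsum (hact ℝ f hf)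
  · intro hP hinj hQ
    obtain ⟨a, ha, ha0⟩ : ∃ a : MonoidAlgebra ℤ (GroupOf (relatorsQ rs r)),
        a * Pool.Agent.Lib.MP_11cd85_al.fox (QuotientGroup.mk' (N (relatorsQ rs r))) none r = 0 ∧
          a ≠ 0 := by
      by_contra hcon
      push Not at hcon
      exact hQ (Pool.Agent.Lib.MP_11cd85_al.asph_of_fox rs r hP hinj hcon)
    constructor
    · refine ⟨fun g => a.coeff g, ?_, ?_, ?_⟩
      · exact a.coeff.hasFiniteSupport
      · intro h
        apply ha0
        apply MonoidAlgebra.ext
        apply Finsupp.ext
        intro g
        exact congrFun h g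
      · intro g
        have h1 : (a * Pool.Agent.Lib.MP_11cd85_al.fox
            (QuotientGroup.mk' (N (relatorsQ rs r))) none r).coeff g = 0 := by rw [ha]; rfl
        rw [hfox _ rfl, Finset.mul_sum, MonoidAlgebra.coeff_sum, Finsupp.finsetSum_apply] at h1
        rw [← h1]
        unfold mulFox
        apply Finset.sum_congr rfl
        intro i _
        rw [MonoidAlgebra.coeff_mul_single_apply, mul_comm]
    · obtain ⟨v, hv, hv0⟩ : ∃ v, Pool.Agent.Lib.MP_11cd85_al.opT _
          (Pool.Agent.Lib.MP_11cd85_al.fox (QuotientGroup.mk' (N (relatorsQ rs r))) none r) v = 0 ∧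
            v ≠ 0 := by
        by_contra hcon
        push Not at hcon
        exact ha0 (Pool.Agent.Lib.MP_11cd85_al.eq_zero_of_injective ha
          ((injective_iff_map_eq_zero _).2 hcon))
      refine ⟨fun g => v g, Pool.Agent.Lib.MP_11cd85_al.E2.summable v, ?_, ?_⟩
      · intro h
        apply hv0
        apply lp.ext
        exact h
      · intro g
        rw [hfox _ rfl, map_sum] at hv
        have h1 : ∀ (s : Finset (Fin r.toWord.length)),
            (∑ i ∈ s, Pool.Agent.Lib.MP_11cd85_al.opT (GroupOf (relatorsQ rs r))
              (MonoidAlgebra.single (position rs r i) (exponent r i))) v g =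
            ∑ i ∈ s, exponent r i • v ((position rs r i)⁻¹ * g) := by
          intro s
          induction s using Finset.induction_on with
          | empty => rfl
          | insert i s hi ih =>
            rw [Finset.sum_insert hi, Finset.sum_insert hi, ← ih]
            have h2 := Pool.Agent.Lib.MP_11cd85_al.opT_single
              (position rs r i) (exponent r i) v
            change (Pool.Agent.Lib.MP_11cd85_al.opT _ _ v) g + _ = _
            rw [h2]
            rfl
        unfold foxMul
        rw [← h1 Finset.univ, hv]
        rfl

end Pool.Agent.Results.MP_11cd85_al.OneSidedZeroDivisor
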