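import Pool.Agent.Lib.MP_11cd85_al.UPR.ModP

/-!
# Ivanov's asphericity conjecture and unique products in quotients of finitely many subgroups
-/

set_option autoImplicit false

namespace Pool.Agent.Results.MP_11cd85_al.UniqueProductQuotients

/-- The normal closure of the relators. -/
abbrev N {X ι : Type} (rel : ι → FreeGroup X) : Subgroup (FreeGroup X) :=
  Subgroup.normalClosure (Set.range rel)

/-- The group of the presentation with generators `X` and relators `rel i`. -/
abbrev GroupOf {X ι : Type} (rel : ι → FreeGroup X) : Type := FreeGroup X ⧸ N rel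

open scoped Classical in
/-- Asphericity of the presentation (as in the frozen statement): the relation module is freely
generated by the relators. A list of triples `(u, i, k)` stands for the product of the
`(u * rel i * u⁻¹) ^ k`; if it lies in the commutator subgroup of the normal closure, then for every
relator and every element of the group the exponents add up to zero. -/
def Aspherical {X ι : Type} (rel : ι → FreeGroup X) : Prop :=
  ∀ l : List (FreeGroup X × ι × ℤ),
    (l.map fun t => (t.1 * rel t.2.1 * t.1⁻¹) ^ t.2.2).prod ∈ ⁅N rel, N rel⁆ →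
      ∀ (i : ι) (g : FreeGroup X),
        (l.map fun t => if t.2.1 = i ∧ g⁻¹ * t.1 ∈ N rel then t.2.2 else 0).sum = 0

/-- The relators of `Q`: those of `P` and the new relator `r`. The generators of `Q` are
`some x`, for the generators `x` of `P`, and the new generator `none`. -/
abbrev relatorsQ {X ι : Type} (rs : ι → FreeGroup X) (r : FreeGroup (Option X)) :
    Option ι → FreeGroup (Option X) :=
  fun o => Option.elim o r fun i => FreeGroup.map some (rs i)

open scoped Classical in
/-- The total exponent of the new generator in `r`. -/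
noncomputable def exponentSum {X : Type} (r : FreeGroup (Option X)) : ℤ :=
  Multiplicative.toAdd (FreeGroup.lift (fun a : Option X =>
    if a = none then Multiplicative.ofAdd (1 : ℤ) else (1 : Multiplicative ℤ)) r)

section

variable {n m : ℕ} (rs : Fin m → FreeGroup (Fin n)) (r : FreeGroup (Option (Fin n)))

/-- The image in `G` of the product of the letters of the reduced word `r` before the `i`-th letter,
if this letter is a generator, and up to and including the `i`-th letter, if it is the inverse of a
generator. -/
def position (i : Fin r.toWord.length) : GroupOf (relatorsQ rs r) :=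
  QuotientGroup.mk' (N (relatorsQ rs r))
    (FreeGroup.mk (if (r.toWord.get i).2 then r.toWord.take i else r.toWord.take (i + 1)))

open scoped Classical in
/-- The coefficient of `g` in the Fox derivative `∂r/∂x ∈ ℤG` (`x` is the new generator): the sum of
the exponents `±1` of the occurrences of `x` in the reduced word `r` with position `g`. -/
noncomputable def coefficient (g : GroupOf (relatorsQ rs r)) : ℤ :=
  ∑ i : Fin r.toWord.length,
    if (r.toWord.get i).1 = none ∧ position rs r i = g then (if (r.toWord.get i).2 then 1 else -1)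
    else 0

end

/-- The subgroup generated by the elements `a⁻¹ b`, `a, b ∈ A`. -/
def differences {G : Type} [Group G] (A : Finset G) : Subgroup G :=
  Subgroup.closure {g | ∃ a ∈ A, ∃ b ∈ A, g = a⁻¹ * b}

/-- The element `a₀⁻¹ a` of `differences A`, for `a₀, a ∈ A`. -/
def translate {G : Type} [Group G] {A : Finset G} (a₀ a : A) : differences A :=
  ⟨(a₀ : G)⁻¹ * a, Subgroup.subset_closure ⟨a₀, a₀.2, a, a.2, rfl⟩⟩

/-- The element `∑ c(a) a₀⁻¹ a`, the sum over `a ∈ A`, of the group ring of `differences A` over
`ZMod p`. -/
noncomputable def translatedSum {G : Type} [Group G] (p : ℕ) (c : G → ℤ) {A : Finset G} (a₀ : A) :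
    MonoidAlgebra (ZMod p) (differences A) :=
  ∑ a : A, MonoidAlgebra.single (translate a₀ a) ((c a : ℤ) : ZMod p)

/-- `H → G` is injective. -/
def Embeds {X ι : Type} (rs : ι → FreeGroup X) (r : FreeGroup (Option X)) : Prop :=
  ∀ w : FreeGroup X, FreeGroup.map some w ∈ N (relatorsQ rs r) → w ∈ N rs

/-- The group of the presentation is torsion-free. -/
def TorsionFree {X ι : Type} (rel : ι → FreeGroup X) : Prop :=
  ∀ (w : FreeGroup X) (k : ℕ), 0 < k → w ^ k ∈ N rel → w ∈ N rel

/-- `D` has no non-trivial homomorphism to a group with unique products. -/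
def NoUniqueProductsQuotient (D : Type) [Group D] : Prop :=
  ∀ (Λ : Type) [Group Λ] [UniqueProds Λ] (π : D →* Λ), π = 1

/-- For every non-trivial homomorphism `π` of `D` to a group, no element of the product
`π(V) π(S)` is in a unique way a product of an element of `π(V)` and an element of `π(S)`. -/
def NoUniqueProduct {D : Type} [Group D] (V S : Set D) : Prop :=
  ∀ (Λ : Type) [Group Λ] (π : D →* Λ), π ≠ 1 → ∀ d ∈ V, ∀ s ∈ S, ∃ d' ∈ V, ∃ s' ∈ S,
    π (d' * s') = π (d * s) ∧ π d' ≠ π d

/-- For all `a₀ ∈ A` the element `α = ∑ c(a) a₀⁻¹ a` of `𝔽_p[D]`, `D = differences A`, is a zero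
divisor, `v * α = 0` for some `v ≠ 0`, and for every `v` with `v * α = 0` there are no unique products
in the images of `supp v` and `a₀⁻¹ A` under non-trivial homomorphisms of `D`. -/
def IsObstruction {G : Type} [Group G] (p : ℕ) (c : G → ℤ) (A : Finset G) : Prop :=
  ∀ a₀ : A,
    (∃ v : MonoidAlgebra (ZMod p) (differences A), v ≠ 0 ∧ v * translatedSum p c a₀ = 0) ∧
    ∀ v : MonoidAlgebra (ZMod p) (differences A), v * translatedSum p c a₀ = 0 →
      NoUniqueProduct (↑v.coeff.support) (Set.range (translate a₀))

/-- **Counterexamples to Ivanov's conjecture.** Let `P` be aspherical, `H → G` injective, `G`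
torsion-free, `Q` not aspherical and `p` zero or a prime number such that `∂r/∂x ≠ 0` modulo `p` (for
instance `p ∤ exponentSum r`). Then there is a set `A` of at least three elements of the support of
`∂r/∂x` modulo `p` such that the subgroup `D` generated by the `a⁻¹ b`, `a, b ∈ A`, has no
non-trivial homomorphism to a group with unique products, and such that `∑ c(a) a₀⁻¹ a ∈ 𝔽_p[D]`
(`ℤ[D]`, if `p = 0`) is a zero divisor, `v * ∑ c(a) a₀⁻¹ a = 0`; moreover, for no such `v` and for no
non-trivial homomorphism `π` from `D` to any group there is a unique product in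
`π(supp v) π(a₀⁻¹ A)`. -/
theorem result (n m : ℕ) (rs : Fin m → FreeGroup (Fin n)) (r : FreeGroup (Option (Fin n)))
    (hP : Aspherical rs) (hinj : Embeds rs r) (htf : TorsionFree (relatorsQ rs r))
    (hQ : ¬ Aspherical (relatorsQ rs r)) (p : ℕ) (hp : p = 0 ∨ p.Prime)
    (hc : ((exponentSum r : ℤ) : ZMod p) ≠ 0 ∨ ∃ g, ((coefficient rs r g : ℤ) : ZMod p) ≠ 0) :
    ∃ A : Finset (GroupOf (relatorsQ rs r)),
      3 ≤ A.card ∧ (∀ a ∈ A, ((coefficient rs r a : ℤ) : ZMod p) ≠ 0) ∧
      NoUniqueProductsQuotient (differences A) ∧ IsObstruction p (coefficient rs r) A := by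
  classical
  have hcc : ∀ g, (Pool.Agent.Lib.MP_11cd85_al.fox
      (Pool.Agent.Lib.MP_11cd85_al.pr (Pool.Agent.Lib.MP_11cd85_al.relQ rs r)) none r).coeff g =
      coefficient rs r g := by
    intro g
    have h := Pool.Agent.Lib.MP_11cd85_al.UPR.coeff_fox_mk
      (QuotientGroup.mk' (N (relatorsQ rs r))) none r.toWord g
    rw [FreeGroup.mk_toWord] at h
    refine h.trans ?_
    unfold coefficient
    apply Finset.sum_congr rfl
    intro i _
    by_cases hi : (r.toWord.get i).1 = none ∧ position rs r i = g
    · exact (if_pos hi).trans (if_pos hi).symm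
    · exact (if_neg hi).trans (if_neg hi).symm
  obtain ⟨A, h1, h2, h3, h4⟩ := Pool.Agent.Lib.MP_11cd85_al.UPR.main rs r hP hinj htf hQ p hp
    (coefficient rs r) hcc hc
  refine ⟨A, h1, h2, h3, fun a₀ => ⟨(h4 a₀).1, ?_⟩⟩
  rintro v hv Λ _ π hπ d hd _ ⟨a, rfl⟩
  obtain ⟨d', hd', a', h5, h6⟩ := (h4 a₀).2 v hv Λ π hπ d hd a
  exact ⟨d', hd', translate a₀ a', ⟨a', rfl⟩, h5, h6⟩

end Pool.Agent.Results.MP_11cd85_al.UniqueProductQuotients
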